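import Mathlib
import Pool.Agent.Q174.TwoBump

/-!
# The two shocks of the two-bump solution merge in finite time

For every `α > 1`, `0 < ρ₁ < ρ₂`, `m₁, m₂ > 0` the two-bump solution becomes the vortex at the time
`t = (1/α) ((ρ₂ - ρ₁) / (m₁ + m₂ - ((m₁ + m₂)^p - m₁^p)^{1/p}))^α`, `p = α/(α-1)`.
-/

set_option autoImplicit false

open Filter Topology Set MeasureTheory

namespace Pool.Agent.Results.MP_5288f0_an.Merging

/-- The density `(((ρ - ρ₂)/(α m₁ t))^{-α/(α-1)} + α t)^{-1/α}` of the rarefaction fan. -/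
noncomputable def fan (α m₁ ρ₂ t ρ : ℝ) : ℝ :=
  (((ρ - ρ₂) / (α * m₁ * t)) ^ (-(α / (α - 1))) + α * t) ^ (-(1 / α))

/-- The density at time `t` when the shocks are at `s₁` and `s₂`: `(α t)^{-1/α}` on `(ρ₁, s₁)`, the
fan on `(max s₁ ρ₂, s₂)`, and `0` elsewhere. -/
noncomputable def dens (α ρ₁ ρ₂ m₁ s₁ s₂ t ρ : ℝ) : ℝ :=
  if ρ₁ < ρ ∧ ρ < s₁ then (α * t) ^ (-(1 / α))
  else if max s₁ ρ₂ < ρ ∧ ρ < s₂ then fan α m₁ ρ₂ t ρ else 0

/-- The mass `m(t, r) = ∫_0^r u(t, ρ) dρ`. -/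
noncomputable def mass (α ρ₁ ρ₂ m₁ s₁ s₂ t r : ℝ) : ℝ :=
  ∫ ρ in (0 : ℝ)..r, dens α ρ₁ ρ₂ m₁ s₁ s₂ t ρ

/-- `v` is the Rankine-Hugoniot velocity `M (u(s⁺)^α - u(s⁻)^α) / (u(s⁺) - u(s⁻))` of a shock at `s`
of the density `u`, where `M` is the mass to the left of `s`. -/
def RankineHugoniot (α : ℝ) (u : ℝ → ℝ) (M s v : ℝ) : Prop :=
  ∃ a b : ℝ, Tendsto u (𝓝[<] s) (𝓝 a) ∧ Tendsto u (𝓝[>] s) (𝓝 b) ∧ a ≠ b ∧
    v = M * ((b ^ α - a ^ α) / (b - a))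

/-- `S₁ < S₂` are the shocks of the two-bump solution on the time interval `(0, T)`. -/
structure IsTwoBump (α ρ₁ ρ₂ m₁ m₂ T : ℝ) (S₁ S₂ : ℝ → ℝ) : Prop where
  order : ∀ t, 0 < t → t < T → ρ₁ < S₁ t ∧ S₁ t < S₂ t ∧ ρ₂ < S₂ t
  init₁ : Tendsto S₁ (𝓝[>] 0) (𝓝 ρ₁)
  init₂ : Tendsto S₂ (𝓝[>] 0) (𝓝 ρ₂)
  mass₁ : Tendsto (fun t => mass α ρ₁ ρ₂ m₁ (S₁ t) (S₂ t) t (S₁ t)) (𝓝[>] 0) (𝓝 m₁)
  mass₂ : Tendsto (fun t => mass α ρ₁ ρ₂ m₁ (S₁ t) (S₂ t) t (S₂ t)) (𝓝[>] 0) (𝓝 (m₁ + m₂))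
  rh₁ : ∀ t, 0 < t → t < T → ∃ v, HasDerivAt S₁ v t ∧
    RankineHugoniot α (dens α ρ₁ ρ₂ m₁ (S₁ t) (S₂ t) t)
      (mass α ρ₁ ρ₂ m₁ (S₁ t) (S₂ t) t (S₁ t)) (S₁ t) v
  rh₂ : ∀ t, 0 < t → t < T → ∃ v, HasDerivAt S₂ v t ∧
    RankineHugoniot α (dens α ρ₁ ρ₂ m₁ (S₁ t) (S₂ t) t)
      (mass α ρ₁ ρ₂ m₁ (S₁ t) (S₂ t) t (S₂ t)) (S₂ t) v

/-- The merging time. -/
noncomputable def mergeTime (α ρ₁ ρ₂ m₁ m₂ : ℝ) : ℝ :=
  1 / α * ((ρ₂ - ρ₁) / (m₁ + m₂ -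
    ((m₁ + m₂) ^ (α / (α - 1)) - m₁ ^ (α / (α - 1))) ^ (1 / (α / (α - 1))))) ^ α

section aux

open Q174.TwoBump

lemma integral_Ioo_congr {f g : ℝ → ℝ} {a b : ℝ} (hab : a ≤ b) (hg : IntervalIntegrable g volume a b)
    (h : ∀ x ∈ Ioo a b, f x = g x) :
    IntervalIntegrable f volume a b ∧ ∫ x in a..b, f x = ∫ x in a..b, g x := by
  have hae : f =ᵐ[volume.restrict (Ioc a b)] g := by
    rw [Filter.EventuallyEq, ae_restrict_iff' measurableSet_Ioc]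
    have h2 : ∀ᵐ τ : ℝ, τ ∉ ({b} : Set ℝ) := compl_mem_ae_iff.2 (by simp)
    filter_upwards [h2] with x hx hx2
    exact h x ⟨hx2.1, lt_of_le_of_ne hx2.2 (by simpa using hx)⟩
  constructor
  · rw [intervalIntegrable_iff_integrableOn_Ioc_of_le hab] at hg ⊢
    exact hg.congr_fun_ae hae.symm
  · rw [intervalIntegral.integral_of_le hab, intervalIntegral.integral_of_le hab]
    exact integral_congr_ae hae

variable {α p ρ₁ ρ₂ m₁ m₂ : ℝ}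

/-- `w(t) = (α t)^{1/α}` -/
noncomputable def w (α t : ℝ) : ℝ := (α * t) ^ (1 / α)

lemma w_pos (hα : 0 < α) {t : ℝ} (ht : 0 < t) : 0 < w α t := Real.rpow_pos_of_pos (by positivity) _

lemma w_rpow (hα : 0 < α) {t : ℝ} (ht : 0 < t) : w α t ^ α = α * t := by
  rw [w, ← Real.rpow_mul (by positivity), one_div_mul_cancel hα.ne', Real.rpow_one]

lemma vort_eq (hα : 0 < α) {t : ℝ} (ht : 0 < t) : (α * t) ^ (-(1 / α)) = 1 / w α t := by
  rw [w, Real.rpow_neg (by positivity), inv_eq_one_div]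

lemma hasDerivAt_w (hα : 0 < α) {t : ℝ} (ht : 0 < t) :
    HasDerivAt (w α) (w α t ^ (1 - α)) t := by
  have h1 : HasDerivAt (fun t => α * t) α t := by simpa using (hasDerivAt_id t).const_mul α
  have h2 := h1.rpow_const (p := 1 / α) (Or.inl (by positivity))
  refine h2.congr_deriv ?_
  rw [w, ← Real.rpow_mul (by positivity)]
  have : α * (1 / α) = 1 := by field_simp
  rw [this, one_mul]
  congr 1
  field_simp

/-- the smooth function which is the density between the shocks -/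
noncomputable def fn (α p ρ₂ m₁ t ρ : ℝ) : ℝ := Qd m₁ p ((ρ - ρ₂) / w α t) / w α t

lemma continuous_fn (h : Conj α p) (hm : 0 < m₁) (t : ℝ) (ht : 0 < t) :
    Continuous (fn α p ρ₂ m₁ t) := by
  have hw := w_pos (by have := h.hα; linarith : 0 < α) ht
  unfold fn
  exact ((continuous_Qd h.p1 hm).comp (by fun_prop)).div_const _

lemma fan_fn (h : Conj α p) (hm : 0 < m₁) {t ρ : ℝ} (ht : 0 < t) (hρ : ρ₂ < ρ) :
    fan α m₁ ρ₂ t ρ = fn α p ρ₂ m₁ t ρ := by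
  have := fan_eq h hm ht (sub_pos.2 hρ)
  rw [fan, ← h.hp, this, fn, w]

lemma dens_right (h : Conj α p) (hm : 0 < m₁) {s₁ s₂ t ρ : ℝ} (ht : 0 < t) (h1 : s₁ < ρ)
    (h2 : ρ < s₂) : dens α ρ₁ ρ₂ m₁ s₁ s₂ t ρ = fn α p ρ₂ m₁ t ρ := by
  rw [dens, if_neg (fun hh => absurd hh.2 (not_lt.2 h1.le))]
  by_cases hρ : ρ₂ < ρ
  · rw [if_pos ⟨max_lt h1 hρ, h2⟩, fan_fn h hm ht hρ]
  · rw [if_neg (fun hh => hρ ((le_max_right _ _).trans_lt hh.1)), fn,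
      Qd_of_nonpos h.p1, zero_div]
    exact div_nonpos_of_nonpos_of_nonneg (by linarith [not_lt.1 hρ])
      (w_pos (by have := h.hα; linarith : 0 < α) ht).le

lemma dens_left {s₁ s₂ t ρ : ℝ} (h1 : ρ₁ < ρ) (h2 : ρ < s₁) :
    dens α ρ₁ ρ₂ m₁ s₁ s₂ t ρ = (α * t) ^ (-(1 / α)) := by
  rw [dens, if_pos ⟨h1, h2⟩]

lemma mass_s1 (hα : 0 < α) {s₁ s₂ t : ℝ} (ht : 0 < t) (h0 : 0 < ρ₁) (h1 : ρ₁ < s₁) :
    IntervalIntegrable (dens α ρ₁ ρ₂ m₁ s₁ s₂ t) volume 0 s₁ ∧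
    mass α ρ₁ ρ₂ m₁ s₁ s₂ t s₁ = (s₁ - ρ₁) / w α t := by
  have a1 := integral_Ioo_congr (f := dens α ρ₁ ρ₂ m₁ s₁ s₂ t) (g := fun _ => 0) h0.le
    (continuous_const.intervalIntegrable _ _) (fun x hx => by
      rw [dens, if_neg (fun hh => absurd hh.1 (not_lt.2 hx.2.le)),
        if_neg (fun hh => absurd ((le_max_left _ _).trans_lt hh.1) (not_lt.2 (hx.2.trans h1).le))])
  have a2 := integral_Ioo_congr (f := dens α ρ₁ ρ₂ m₁ s₁ s₂ t) (g := fun _ => (α * t) ^ (-(1 / α)))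
    h1.le (continuous_const.intervalIntegrable _ _) (fun x hx => dens_left hx.1 hx.2)
  refine ⟨a1.1.trans a2.1, ?_⟩
  rw [mass, ← intervalIntegral.integral_add_adjacent_intervals a1.1 a2.1, a1.2, a2.2,
    vort_eq hα ht]
  simp
  ring

lemma mass_s2 (h : Conj α p) (hm : 0 < m₁) {s₁ s₂ t : ℝ} (ht : 0 < t) (h0 : 0 < ρ₁) (h1 : ρ₁ < s₁)
    (h2 : s₁ ≤ s₂) : mass α ρ₁ ρ₂ m₁ s₁ s₂ t s₂ =
      (s₁ - ρ₁) / w α t + (Q m₁ p ((s₂ - ρ₂) / w α t) - Q m₁ p ((s₁ - ρ₂) / w α t)) := by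
  have hα : 0 < α := by have := h.hα; linarith
  have hw := w_pos hα ht
  have a1 := mass_s1 (ρ₂ := ρ₂) (m₁ := m₁) (s₂ := s₂) hα ht h0 h1
  have hc := continuous_fn (ρ₂ := ρ₂) h hm t ht
  have a2 := integral_Ioo_congr (f := dens α ρ₁ ρ₂ m₁ s₁ s₂ t) (g := fn α p ρ₂ m₁ t)
    h2 (hc.intervalIntegrable _ _) (fun x hx => dens_right h hm ht hx.1 hx.2)
  have a3 : ∫ x in s₁..s₂, fn α p ρ₂ m₁ t x =
      Q m₁ p ((s₂ - ρ₂) / w α t) - Q m₁ p ((s₁ - ρ₂) / w α t) := by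
    apply intervalIntegral.integral_eq_sub_of_hasDerivAt (f := fun x => Q m₁ p ((x - ρ₂) / w α t))
    · intro x _
      have e1 : HasDerivAt (fun x => (x - ρ₂) / w α t) (1 / w α t) x :=
        ((hasDerivAt_id x).sub_const ρ₂).div_const _
      refine ((hasDerivAt_Q h.p1 hm ((x - ρ₂) / w α t)).comp x e1).congr_deriv ?_
      rw [fn]; ring
    · exact hc.intervalIntegrable _ _
  have a4 := a1.2
  rw [mass] at a4 ⊢
  rw [← intervalIntegral.integral_add_adjacent_intervals a1.1 a2.1, a4, a2.2, a3]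

/-- The Rankine-Hugoniot velocity of the inner shock. -/
lemma rh1_value (h : Conj α p) (hm : 0 < m₁) {s₁ s₂ t M v : ℝ} (ht : 0 < t) (h1 : ρ₁ < s₁)
    (h2 : s₁ < s₂) (hrh : RankineHugoniot α (dens α ρ₁ ρ₂ m₁ s₁ s₂ t) M s₁ v) :
    v * (1 - Qd m₁ p ((s₁ - ρ₂) / w α t)) =
      M * w α t ^ (1 - α) * (1 - Qd m₁ p ((s₁ - ρ₂) / w α t) ^ α) := by
  have hα : 0 < α := by have := h.hα; linarith
  have hw := w_pos hα ht
  obtain ⟨a, b, ha, hb, hab, hv⟩ := hrh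
  have ha' : a = 1 / w α t := by
    have : Tendsto (dens α ρ₁ ρ₂ m₁ s₁ s₂ t) (𝓝[<] s₁) (𝓝 ((α * t) ^ (-(1 / α)))) := by
      refine tendsto_const_nhds.congr' ?_
      filter_upwards [Ioo_mem_nhdsLT h1] with x hx
      exact (dens_left hx.1 hx.2).symm
    rw [← vort_eq hα ht]
    exact tendsto_nhds_unique ha this
  have hb' : b = Qd m₁ p ((s₁ - ρ₂) / w α t) / w α t := by
    have hc := (continuous_fn (ρ₂ := ρ₂) h hm t ht).tendsto s₁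
    have : Tendsto (dens α ρ₁ ρ₂ m₁ s₁ s₂ t) (𝓝[>] s₁) (𝓝 (fn α p ρ₂ m₁ t s₁)) := by
      refine (hc.mono_left nhdsWithin_le_nhds).congr' ?_
      filter_upwards [Ioo_mem_nhdsGT h2] with x hx
      exact (dens_right h hm ht hx.1 hx.2).symm
    exact tendsto_nhds_unique hb this
  set q := Qd m₁ p ((s₁ - ρ₂) / w α t) with hq
  have hq0 : 0 ≤ q := Qd_nonneg hm _
  have hq1 : q < 1 := Qd_lt_one h.p1 hm _
  have hwa : 0 < w α t ^ α := Real.rpow_pos_of_pos hw _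
  rw [hv, ha', hb', Real.div_rpow hq0 hw.le, Real.div_rpow zero_le_one hw.le, Real.one_rpow,
    Real.rpow_sub hw, Real.rpow_one]
  have hne : q - 1 ≠ 0 := by linarith
  have : q / w α t - 1 / w α t = (q - 1) / w α t := by ring
  rw [this]
  field_simp
  ring

/-- The Rankine-Hugoniot velocity of the outer shock. -/
lemma rh2_value (h : Conj α p) (hm : 0 < m₁) {s₁ s₂ t M v : ℝ} (ht : 0 < t)
    (h2 : s₁ < s₂) (h3 : ρ₂ < s₂)
    (hrh : RankineHugoniot α (dens α ρ₁ ρ₂ m₁ s₁ s₂ t) M s₂ v) :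
    v = M * w α t ^ (1 - α) * Qd m₁ p ((s₂ - ρ₂) / w α t) ^ (α - 1) := by
  have hα : 0 < α := by have := h.hα; linarith
  have hw := w_pos hα ht
  obtain ⟨a, b, ha, hb, hab, hv⟩ := hrh
  have hb' : b = 0 := by
    have : Tendsto (dens α ρ₁ ρ₂ m₁ s₁ s₂ t) (𝓝[>] s₂) (𝓝 0) := by
      refine tendsto_const_nhds.congr' ?_
      filter_upwards [self_mem_nhdsWithin] with x hx
      have hx' : s₂ < x := hx
      rw [dens, if_neg (fun hh => by linarith [hh.2]), if_neg (fun hh => by linarith [hh.2])]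
    exact tendsto_nhds_unique hb this
  have ha' : a = Qd m₁ p ((s₂ - ρ₂) / w α t) / w α t := by
    have hc := (continuous_fn (ρ₂ := ρ₂) h hm t ht).tendsto s₂
    have : Tendsto (dens α ρ₁ ρ₂ m₁ s₁ s₂ t) (𝓝[<] s₂) (𝓝 (fn α p ρ₂ m₁ t s₂)) := by
      refine (hc.mono_left nhdsWithin_le_nhds).congr' ?_
      filter_upwards [Ioo_mem_nhdsLT h2] with x hx
      exact (dens_right h hm ht hx.1 hx.2).symm
    exact tendsto_nhds_unique ha this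
  set q := Qd m₁ p ((s₂ - ρ₂) / w α t) with hq
  have hq0 : 0 < q := Qd_pos hm (div_pos (by linarith) hw)
  rw [hv, ha', hb', Real.zero_rpow hα.ne', Real.div_rpow hq0.le hw.le,
    Real.rpow_sub hw, Real.rpow_one, Real.rpow_sub hq0, Real.rpow_one]
  have hwa : 0 < w α t ^ α := Real.rpow_pos_of_pos hw _
  have hqa : 0 < q ^ α := Real.rpow_pos_of_pos hq0 _
  have hqn : q ≠ 0 := hq0.ne'
  have hwn : w α t ≠ 0 := hw.ne'
  have hwan : w α t ^ α ≠ 0 := hwa.ne'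
  have : (0:ℝ) - q / w α t ≠ 0 := by
    rw [zero_sub, neg_ne_zero]; positivity
  rw [show (0:ℝ) - q ^ α / w α t ^ α = -(q ^ α / w α t ^ α) by ring,
    show (0:ℝ) - q / w α t = -(q / w α t) by ring, neg_div_neg_eq]
  field_simp

/-- The relation at the inner shock. -/
lemma inner (h : Conj α p) (hm : 0 < m₁) (h0 : 0 < ρ₁) (h12 : ρ₁ < ρ₂) {T : ℝ} {S₁ S₂ : ℝ → ℝ}
    (hS : IsTwoBump α ρ₁ ρ₂ m₁ m₂ T S₁ S₂) {t : ℝ} (ht : 0 < t) (htT : t < T) :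
    (S₁ t - ρ₁) / w α t = Q m₁ p ((S₁ t - ρ₂) / w α t) := by
  have hα : 0 < α := by have := h.hα; linarith
  set D : ℝ → ℝ := fun t => (S₁ t - ρ₁) / w α t - Q m₁ p ((S₁ t - ρ₂) / w α t) with hD
  have hder : ∀ s, 0 < s → s < T → ∃ k, 0 ≤ k ∧ HasDerivAt D (-(k * D s)) s := by
    intro s hs hsT
    obtain ⟨v, hv, hrh⟩ := hS.rh₁ s hs hsT
    obtain ⟨o1, o2, o3⟩ := hS.order s hs hsT
    have hw := w_pos hα hs
    have hv' := rh1_value h hm hs o1 o2 hrh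
    rw [(mass_s1 hα hs h0 o1).2] at hv'
    set q := Qd m₁ p ((S₁ s - ρ₂) / w α s) with hq
    have hq0 : 0 ≤ q := Qd_nonneg hm _
    have hdw := hasDerivAt_w hα hs
    have e1 : HasDerivAt (fun t => (S₁ t - ρ₁) / w α t)
        ((v * w α s - (S₁ s - ρ₁) * w α s ^ (1 - α)) / w α s ^ 2) s :=
      (hv.sub_const ρ₁).div hdw hw.ne'
    have e2 : HasDerivAt (fun t => (S₁ t - ρ₂) / w α t)
        ((v * w α s - (S₁ s - ρ₂) * w α s ^ (1 - α)) / w α s ^ 2) s :=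
      (hv.sub_const ρ₂).div hdw hw.ne'
    have e3 : HasDerivAt (fun t => Q m₁ p ((S₁ t - ρ₂) / w α t))
        (q * ((v * w α s - (S₁ s - ρ₂) * w α s ^ (1 - α)) / w α s ^ 2)) s :=
      (hasDerivAt_Q h.p1 hm _).comp s e2
    have hwp : 0 < w α s ^ (1 - α) := Real.rpow_pos_of_pos hw _
    refine ⟨w α s ^ (1 - α) / w α s * q ^ α, by positivity, ?_⟩
    refine (e1.sub e3).congr_deriv ?_
    have key := Qd_rpow' h hm ((S₁ s - ρ₂) / w α s)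
    rw [← hq] at key
    have key2 : q * max ((S₁ s - ρ₂) / w α s) 0 = q * ((S₁ s - ρ₂) / w α s) := by
      by_cases hx : (S₁ s - ρ₂) / w α s ≤ 0
      · have : q = 0 := Qd_of_nonpos h.p1 hx
        rw [this]; ring
      · rw [max_eq_left (not_le.1 hx).le]
    rw [key2] at key
    simp only [hD]
    set QQ := Q m₁ p ((S₁ s - ρ₂) / w α s) with hQQ
    set W := w α s ^ (1 - α) with hW
    have hwn : w α s ≠ 0 := hw.ne'
    have key3 : q ^ α * QQ * w α s = q * (S₁ s - ρ₂) := by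
      rw [key]; field_simp
    have hv2 : v * (1 - q) * w α s = (S₁ s - ρ₁) * W * (1 - q ^ α) := by
      rw [hv']; field_simp
    field_simp
    linear_combination hv2 - W * key3
  have hDc : ∀ s, 0 < s → s < T → (D s) ^ 2 ≥ (D t) ^ 2 ∨ t < s := by
    intro s hs hsT
    rcases le_or_gt s t with hst | hst
    · left
      have hanti : AntitoneOn (fun r => D r ^ 2) (Icc s t) := by
        have hd2 : ∀ r ∈ Icc s t, ∃ k, 0 ≤ k ∧ HasDerivAt (fun r => D r ^ 2) (-(2 * k * D r ^ 2)) r := by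
          intro r hr
          obtain ⟨k, hk, hd⟩ := hder r (by linarith [hr.1]) (by linarith [hr.2])
          refine ⟨k, hk, ((hd.pow 2)).congr_deriv ?_⟩
          push_cast
          ring
        apply antitoneOn_of_deriv_nonpos (convex_Icc s t)
        · intro r hr
          obtain ⟨k, hk, hd⟩ := hd2 r hr
          exact hd.continuousAt.continuousWithinAt
        · intro r hr
          obtain ⟨k, hk, hd⟩ := hd2 r (interior_subset hr)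
          exact hd.differentiableAt.differentiableWithinAt
        · intro r hr
          obtain ⟨k, hk, hd⟩ := hd2 r (interior_subset hr)
          rw [hd.deriv]
          have : 0 ≤ 2 * k * D r ^ 2 := by positivity
          linarith
      exact hanti (left_mem_Icc.2 hst) (right_mem_Icc.2 hst) hst
    · right; exact hst
  have hlim : Tendsto (fun s => (D s) ^ 2) (𝓝[>] 0) (𝓝 0) := by
    have l1 : Tendsto (fun s => (S₁ s - ρ₁) / w α s) (𝓝[>] 0) (𝓝 m₁) := by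
      refine hS.mass₁.congr' ?_
      filter_upwards [Ioo_mem_nhdsGT (ht.trans htT)] with s hs
      exact (mass_s1 hα hs.1 h0 (hS.order s hs.1 hs.2).1).2
    have l2 : Tendsto (fun s => Q m₁ p ((S₁ s - ρ₂) / w α s)) (𝓝[>] 0) (𝓝 m₁) := by
      refine tendsto_const_nhds.congr' ?_
      filter_upwards [Ioo_mem_nhdsGT (ht.trans htT), hS.init₁.eventually (gt_mem_nhds h12)] with s hs hs2
      rw [Q_of_nonpos h.p1 hm]
      exact div_nonpos_of_nonpos_of_nonneg (by linarith) (w_pos hα hs.1).le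
    have := (l1.sub l2).pow 2
    simpa using this
  have hD0 : D t ^ 2 ≤ 0 := by
    refine ge_of_tendsto hlim ?_
    filter_upwards [Ioo_mem_nhdsGT ht] with s hs
    rcases hDc s hs.1 (hs.2.trans htT) with h1 | h1
    · exact h1
    · exact absurd h1 (not_lt.2 hs.2.le)
  have : D t = 0 := by nlinarith [sq_nonneg (D t)]
  simp only [hD] at this
  linarith

/-- The relation at the outer shock. -/
lemma outer (h : Conj α p) (hm : 0 < m₁) (h0 : 0 < ρ₁) (h12 : ρ₁ < ρ₂) {T : ℝ} {S₁ S₂ : ℝ → ℝ}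
    (hS : IsTwoBump α ρ₁ ρ₂ m₁ m₂ T S₁ S₂) {t : ℝ} (ht : 0 < t) (htT : t < T) :
    Q m₁ p ((S₂ t - ρ₂) / w α t) = m₁ + m₂ := by
  have hα : 0 < α := by have := h.hα; linarith
  have hmass : ∀ s, 0 < s → s < T → mass α ρ₁ ρ₂ m₁ (S₁ s) (S₂ s) s (S₂ s) =
      Q m₁ p ((S₂ s - ρ₂) / w α s) := by
    intro s hs hsT
    obtain ⟨o1, o2, o3⟩ := hS.order s hs hsT
    rw [mass_s2 h hm hs h0 o1 o2.le, inner h hm h0 h12 hS hs hsT]
    ring
  set X : ℝ → ℝ := fun t => (S₂ t - ρ₂) / w α t with hX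
  have hder : ∀ s, 0 < s → s < T → HasDerivAt X 0 s := by
    intro s hs hsT
    obtain ⟨v, hv, hrh⟩ := hS.rh₂ s hs hsT
    obtain ⟨o1, o2, o3⟩ := hS.order s hs hsT
    have hw := w_pos hα hs
    have hv' := rh2_value h hm hs o2 o3 hrh
    rw [hmass s hs hsT] at hv'
    have hdw := hasDerivAt_w hα hs
    refine ((hv.sub_const ρ₂).div hdw hw.ne').congr_deriv ?_
    have key := Qd_rpow h hm ((S₂ s - ρ₂) / w α s)
    rw [max_eq_left (div_pos (by linarith) hw).le] at key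
    have : v = w α s ^ (1 - α) * ((S₂ s - ρ₂) / w α s) := by
      calc v = w α s ^ (1 - α) * (Qd m₁ p ((S₂ s - ρ₂) / w α s) ^ (α - 1) *
            Q m₁ p ((S₂ s - ρ₂) / w α s)) := by rw [hv']; ring
        _ = _ := by rw [key]
    rw [this]
    have hwn : w α s ≠ 0 := hw.ne'
    field_simp
    ring
  have hconst : ∀ s, 0 < s → s ≤ t → X s = X t := by
    intro s hs hst
    have hcont : ContinuousOn X (Icc s t) := fun r hr =>
      (hder r (by linarith [hr.1]) (by linarith [hr.2])).continuousAt.continuousWithinAt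
    have hdiff : DifferentiableOn ℝ X (Icc s t) := fun r hr =>
      (hder r (by linarith [hr.1]) (by linarith [hr.2])).differentiableAt.differentiableWithinAt
    have := constant_of_derivWithin_zero hdiff (fun r hr => by
      rw [((hder r (by linarith [hr.1]) (by linarith [hr.2])).hasDerivWithinAt).derivWithin]
      exact (uniqueDiffOn_Icc (lt_of_le_of_ne hst (fun h => by
        rw [h] at hr; exact absurd hr.2 (not_lt.2 hr.1)))) r (Ico_subset_Icc_self hr))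
    exact (this t (right_mem_Icc.2 hst)).symm
  have hlim : Tendsto (fun s => Q m₁ p (X s)) (𝓝[>] 0) (𝓝 (m₁ + m₂)) := by
    refine hS.mass₂.congr' ?_
    filter_upwards [Ioo_mem_nhdsGT (ht.trans htT)] with s hs
    exact hmass s hs.1 hs.2
  have hlim2 : Tendsto (fun s => Q m₁ p (X s)) (𝓝[>] 0) (𝓝 (Q m₁ p (X t))) := by
    refine tendsto_const_nhds.congr' ?_
    filter_upwards [Ioo_mem_nhdsGT ht] with s hs
    rw [hconst s hs.1 hs.2.le]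
  exact tendsto_nhds_unique hlim2 hlim

end aux

section aux2

open Q174.TwoBump

variable {α p ρ₁ ρ₂ m₁ m₂ : ℝ}

lemma div_Q_mono (hp : 1 < p) (hm : 0 < m₁) {a b : ℝ} (hab : a ≤ b) :
    max a 0 / Q m₁ p a ≤ max b 0 / Q m₁ p b := by
  have hQa := Q_pos (p := p) hm a
  have hQb := Q_pos (p := p) hm b
  have ha : 0 ≤ max a 0 := le_max_right _ _
  have hb : 0 ≤ max b 0 := le_max_right _ _
  have hab' : max a 0 ≤ max b 0 := max_le_max hab le_rfl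
  rw [div_le_div_iff₀ hQa hQb]
  rw [← Real.rpow_le_rpow_iff (by positivity) (by positivity) (by linarith : 0 < p),
    Real.mul_rpow ha hQb.le, Real.mul_rpow hb hQa.le, Q_rpow hp hm, Q_rpow hp hm]
  have h1 : (max a 0) ^ p ≤ (max b 0) ^ p := Real.rpow_le_rpow ha hab' (by linarith)
  have h2 : 0 < m₁ ^ p := Real.rpow_pos_of_pos hm p
  nlinarith

lemma Qd_mono (hp : 1 < p) (hm : 0 < m₁) {a b : ℝ} (hab : a ≤ b) : Qd m₁ p a ≤ Qd m₁ p b := by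
  apply Real.rpow_le_rpow _ (div_Q_mono hp hm hab) (by linarith)
  exact div_nonneg (le_max_right _ _) (Q_pos hm a).le

/-- Lower bound for the increments of `Γ`. -/
lemma Γ_expand (hp : 1 < p) (hm : 0 < m₁) {x₂ a b : ℝ} (ha : a ≤ b) (hb : b ≤ x₂) :
    (1 - Qd m₁ p x₂) * (b - a) ≤ Γ m₁ p a - Γ m₁ p b := by
  have hanti : AntitoneOn (fun x => Γ m₁ p x + (1 - Qd m₁ p x₂) * x) (Iic x₂) := by
    have hd : ∀ x, HasDerivAt (fun x => Γ m₁ p x + (1 - Qd m₁ p x₂) * x)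
        (Qd m₁ p x - 1 + (1 - Qd m₁ p x₂) * 1) x := fun x =>
      (hasDerivAt_Γ hp hm x).add ((hasDerivAt_id x).const_mul _)
    apply antitoneOn_of_deriv_nonpos (convex_Iic x₂)
    · exact fun x _ => (hd x).continuousAt.continuousWithinAt
    · exact fun x _ => (hd x).differentiableAt.differentiableWithinAt
    · intro x hx
      rw [(hd x).deriv]
      have hx' : x ∈ Iic x₂ := interior_subset hx
      have := Qd_mono hp hm (mem_Iic.1 hx')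
      linarith
  have := hanti (ha.trans hb : a ≤ x₂) hb ha
  simp only at this
  linarith

lemma exists_inv (hp : 1 < p) (hm : 0 < m₁) {x₂ y : ℝ} (hx₂ : 0 ≤ x₂) (hy : Γ m₁ p x₂ ≤ y) :
    ∃ x ≤ x₂, Γ m₁ p x = y := by
  have hy0 : 0 < y := (Γ_pos hp hm x₂).trans_le hy
  have h1 : y ≤ Γ m₁ p (-y) := by
    rw [Γ, Q_of_nonpos hp hm (by linarith)]; linarith
  have h2 : y ∈ Icc (Γ m₁ p x₂) (Γ m₁ p (-y)) := ⟨hy, h1⟩
  obtain ⟨x, hx, hxy⟩ := intermediate_value_Icc' (by linarith : -y ≤ x₂)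
    (continuous_Γ hp hm).continuousOn h2
  exact ⟨x, hx.2, hxy⟩

/-- The inverse of `Γ` on `(-∞, x₂]`. -/
noncomputable def gi (m₁ p x₂ y : ℝ) : ℝ := Function.invFunOn (Γ m₁ p) (Iic x₂) y

lemma gi_spec (hp : 1 < p) (hm : 0 < m₁) {x₂ y : ℝ} (hx₂ : 0 ≤ x₂) (hy : Γ m₁ p x₂ ≤ y) :
    gi m₁ p x₂ y ≤ x₂ ∧ Γ m₁ p (gi m₁ p x₂ y) = y := by
  obtain ⟨x, hx, hxy⟩ := exists_inv hp hm hx₂ hy
  have hmem : y ∈ Γ m₁ p '' Iic x₂ := ⟨x, hx, hxy⟩
  exact ⟨Function.invFunOn_mem hmem, Function.invFunOn_eq hmem⟩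

lemma gi_continuousOn (hp : 1 < p) (hm : 0 < m₁) {x₂ : ℝ} (hx₂ : 0 ≤ x₂) :
    ContinuousOn (gi m₁ p x₂) (Ici (Γ m₁ p x₂)) := by
  have hc : 0 < 1 - Qd m₁ p x₂ := by have := Qd_lt_one hp hm x₂; linarith
  have key : ∀ y ∈ Ici (Γ m₁ p x₂), ∀ z ∈ Ici (Γ m₁ p x₂),
      |gi m₁ p x₂ y - gi m₁ p x₂ z| ≤ (1 - Qd m₁ p x₂)⁻¹ * |y - z| := by
    have aux : ∀ y ∈ Ici (Γ m₁ p x₂), ∀ z ∈ Ici (Γ m₁ p x₂), gi m₁ p x₂ y ≤ gi m₁ p x₂ z →
        |gi m₁ p x₂ y - gi m₁ p x₂ z| ≤ (1 - Qd m₁ p x₂)⁻¹ * |y - z| := by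
      intro y hy z hz hle
      obtain ⟨a1, a2⟩ := gi_spec hp hm hx₂ hy
      obtain ⟨b1, b2⟩ := gi_spec hp hm hx₂ hz
      have h1 := Γ_expand hp hm hle b1
      rw [a2, b2] at h1
      rw [abs_sub_comm, abs_of_nonneg (by linarith), ← div_eq_inv_mul, le_div_iff₀ hc]
      calc (gi m₁ p x₂ z - gi m₁ p x₂ y) * (1 - Qd m₁ p x₂) =
            (1 - Qd m₁ p x₂) * (gi m₁ p x₂ z - gi m₁ p x₂ y) := by ring
        _ ≤ y - z := h1
        _ ≤ |y - z| := le_abs_self _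
    intro y hy z hz
    rcases le_total (gi m₁ p x₂ y) (gi m₁ p x₂ z) with hle | hle
    · exact aux y hy z hz hle
    · rw [abs_sub_comm, abs_sub_comm y z]; exact aux z hz y hy hle
  have hL : LipschitzOnWith (Real.toNNReal (1 - Qd m₁ p x₂)⁻¹) (gi m₁ p x₂) (Ici (Γ m₁ p x₂)) := by
    apply LipschitzOnWith.of_dist_le_mul
    intro y hy z hz
    rw [Real.dist_eq, Real.dist_eq, Real.coe_toNNReal _ (by positivity)]
    exact key y hy z hz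
  exact hL.continuousOn

lemma gi_deriv (hp : 1 < p) (hm : 0 < m₁) {x₂ y : ℝ} (hx₂ : 0 ≤ x₂) (hy : Γ m₁ p x₂ < y) :
    HasDerivAt (gi m₁ p x₂) (Qd m₁ p (gi m₁ p x₂ y) - 1)⁻¹ y := by
  apply HasDerivAt.of_local_left_inverse (f := Γ m₁ p)
  · exact (gi_continuousOn hp hm hx₂).continuousAt (Ici_mem_nhds hy)
  · exact hasDerivAt_Γ hp hm _
  · have := Qd_lt_one hp hm (gi m₁ p x₂ y)
    intro h; linarith
  · filter_upwards [lt_mem_nhds hy] with z hz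
    exact (gi_spec hp hm hx₂ hz.le).2

/-- The final ratio. -/
noncomputable def x2 (m₁ m₂ p : ℝ) : ℝ := ((m₁ + m₂) ^ p - m₁ ^ p) ^ (1 / p)

lemma x2_pos (hp : 1 < p) (hm : 0 < m₁) (hm₂ : 0 < m₂) : 0 < x2 m₁ m₂ p := by
  apply Real.rpow_pos_of_pos
  have := Real.rpow_lt_rpow hm.le (by linarith : m₁ < m₁ + m₂) (by linarith : 0 < p)
  linarith

lemma Q_x2 (hp : 1 < p) (hm : 0 < m₁) (hm₂ : 0 < m₂) : Q m₁ p (x2 m₁ m₂ p) = m₁ + m₂ := by
  have h1 := x2_pos hp hm hm₂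
  have h2 := Real.rpow_lt_rpow hm.le (by linarith : m₁ < m₁ + m₂) (by linarith : 0 < p)
  rw [Q, max_eq_left h1.le, x2, ← Real.rpow_mul (by linarith), one_div_mul_cancel (by linarith),
    Real.rpow_one, add_sub_cancel, ← Real.rpow_mul (by linarith), mul_one_div_cancel (by linarith),
    Real.rpow_one]

lemma eq_x2 (hp : 1 < p) (hm : 0 < m₁) {x : ℝ} (hx : 0 < x)
    (h : Q m₁ p x = m₁ + m₂) : x = x2 m₁ m₂ p := by
  have h1 := Q_rpow hp hm x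
  rw [max_eq_left hx.le, h] at h1
  rw [x2, h1, add_sub_cancel_left, ← Real.rpow_mul hx.le, mul_one_div_cancel (by linarith),
    Real.rpow_one]

lemma mergeTime_eq (h : Conj α p) :
    mergeTime α ρ₁ ρ₂ m₁ m₂ = 1 / α * ((ρ₂ - ρ₁) / (m₁ + m₂ - x2 m₁ m₂ p)) ^ α := by
  rw [mergeTime, x2, h.hp]

lemma Γ_x2 (hp : 1 < p) (hm : 0 < m₁) (hm₂ : 0 < m₂) :
    Γ m₁ p (x2 m₁ m₂ p) = m₁ + m₂ - x2 m₁ m₂ p := by
  rw [Γ, Q_x2 hp hm hm₂]

lemma mergeTime_pos (h : Conj α p) (h12 : ρ₁ < ρ₂) (hm : 0 < m₁) (hm₂ : 0 < m₂) :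
    0 < mergeTime α ρ₁ ρ₂ m₁ m₂ := by
  have hα : 0 < α := by have := h.hα; linarith
  have h1 := Γ_pos h.p1 hm (x2 m₁ m₂ p)
  rw [Γ_x2 h.p1 hm hm₂] at h1
  rw [mergeTime_eq h]
  have : 0 < (ρ₂ - ρ₁) / (m₁ + m₂ - x2 m₁ m₂ p) := div_pos (by linarith) h1
  positivity

lemma lt_merge_iff (h : Conj α p) (h12 : ρ₁ < ρ₂) (hm : 0 < m₁) (hm₂ : 0 < m₂) {t : ℝ} (ht : 0 < t) :
    t < mergeTime α ρ₁ ρ₂ m₁ m₂ ↔ Γ m₁ p (x2 m₁ m₂ p) < (ρ₂ - ρ₁) / w α t := by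
  have hα : 0 < α := by have := h.hα; linarith
  have hw := w_pos hα ht
  have h1 := Γ_pos h.p1 hm (x2 m₁ m₂ p)
  rw [mergeTime_eq h, ← Γ_x2 h.p1 hm hm₂, lt_div_iff₀ hw]
  set g := Γ m₁ p (x2 m₁ m₂ p)
  have e1 : t = 1 / α * w α t ^ α := by rw [w_rpow hα ht]; field_simp
  conv_lhs => rw [e1]
  rw [mul_lt_mul_iff_right₀ (by positivity), Real.rpow_lt_rpow_iff hw.le
    (div_pos (by linarith) h1).le hα, lt_div_iff₀ h1, mul_comm]

lemma merge_eq (h : Conj α p) (h12 : ρ₁ < ρ₂) (hm : 0 < m₁) (hm₂ : 0 < m₂) :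
    (ρ₂ - ρ₁) / w α (mergeTime α ρ₁ ρ₂ m₁ m₂) = Γ m₁ p (x2 m₁ m₂ p) := by
  have hα : 0 < α := by have := h.hα; linarith
  have h1 := Γ_pos h.p1 hm (x2 m₁ m₂ p)
  have hpos : 0 < (ρ₂ - ρ₁) / Γ m₁ p (x2 m₁ m₂ p) := div_pos (by linarith) h1
  have e : w α (mergeTime α ρ₁ ρ₂ m₁ m₂) = (ρ₂ - ρ₁) / Γ m₁ p (x2 m₁ m₂ p) := by
    rw [mergeTime_eq h, ← Γ_x2 h.p1 hm hm₂, w, ← mul_assoc, mul_one_div_cancel hα.ne', one_mul,
      ← Real.rpow_mul hpos.le, mul_one_div_cancel hα.ne', Real.rpow_one]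
  rw [e]
  have : ρ₂ - ρ₁ ≠ 0 := by linarith
  field_simp

/-- The inner shock. -/
noncomputable def T1 (α p ρ₁ ρ₂ m₁ m₂ t : ℝ) : ℝ :=
  ρ₂ + w α t * gi m₁ p (x2 m₁ m₂ p) ((ρ₂ - ρ₁) / w α t)

/-- The outer shock. -/
noncomputable def T2 (α p ρ₂ m₁ m₂ t : ℝ) : ℝ := ρ₂ + w α t * x2 m₁ m₂ p

/-- Every two-bump solution is given by these formulas, and ends before the merging time. -/
lemma uniqueness (h : Conj α p) (hm : 0 < m₁) (hm₂ : 0 < m₂) (h0 : 0 < ρ₁) (h12 : ρ₁ < ρ₂)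
    {T : ℝ} {S₁ S₂ : ℝ → ℝ} (hS : IsTwoBump α ρ₁ ρ₂ m₁ m₂ T S₁ S₂) {t : ℝ} (ht : 0 < t)
    (htT : t < T) : t < mergeTime α ρ₁ ρ₂ m₁ m₂ ∧ S₁ t = T1 α p ρ₁ ρ₂ m₁ m₂ t ∧
      S₂ t = T2 α p ρ₂ m₁ m₂ t := by
  have hα : 0 < α := by have := h.hα; linarith
  have hw := w_pos hα ht
  obtain ⟨o1, o2, o3⟩ := hS.order t ht htT
  have i1 := inner h hm h0 h12 hS ht htT
  have i2 := outer h hm h0 h12 hS ht htT
  have e2 := eq_x2 h.p1 hm (div_pos (by linarith) hw) i2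
  have hX : (S₁ t - ρ₂) / w α t < x2 m₁ m₂ p := by
    rw [← e2]
    exact div_lt_div_of_pos_right (by linarith) hw
  have hG : Γ m₁ p ((S₁ t - ρ₂) / w α t) = (ρ₂ - ρ₁) / w α t := by
    rw [Γ, ← i1]; ring
  have hlt : Γ m₁ p (x2 m₁ m₂ p) < (ρ₂ - ρ₁) / w α t := by
    rw [← hG]; exact strictAnti_Γ h.p1 hm hX
  refine ⟨(lt_merge_iff h h12 hm hm₂ ht).2 hlt, ?_, ?_⟩
  · obtain ⟨g1, g2⟩ := gi_spec h.p1 hm (x2_pos h.p1 hm hm₂).le hlt.le
    have : gi m₁ p (x2 m₁ m₂ p) ((ρ₂ - ρ₁) / w α t) = (S₁ t - ρ₂) / w α t :=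
      (strictAnti_Γ h.p1 hm).injective (g2.trans hG.symm)
    rw [T1, this]
    field_simp
    ring
  · rw [T2, ← e2]
    field_simp
    ring

lemma tendsto_w (hα : 0 < α) : Tendsto (w α) (𝓝[>] 0) (𝓝 0) := by
  have : ContinuousAt (w α) 0 := by
    unfold w
    apply ContinuousAt.rpow_const (by fun_prop)
    right; positivity
  have h0 : w α 0 = 0 := by rw [w, mul_zero, Real.zero_rpow (by positivity)]
  have h := this.tendsto
  rw [h0] at h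
  exact h.mono_left nhdsWithin_le_nhds

lemma continuousOn_w (hα : 0 < α) : ContinuousOn (w α) (Ioi 0) := fun t ht =>
  (hasDerivAt_w hα ht).continuousAt.continuousWithinAt

lemma existence (h : Conj α p) (hm : 0 < m₁) (hm₂ : 0 < m₂) (h0 : 0 < ρ₁) (h12 : ρ₁ < ρ₂) :
    IsTwoBump α ρ₁ ρ₂ m₁ m₂ (mergeTime α ρ₁ ρ₂ m₁ m₂) (T1 α p ρ₁ ρ₂ m₁ m₂) (T2 α p ρ₂ m₁ m₂) := by
  have hα : 0 < α := by have := h.hα; linarith
  have hx2 := x2_pos h.p1 hm hm₂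
  have hQ2 := Q_x2 h.p1 hm hm₂
  have spec : ∀ t, 0 < t → t < mergeTime α ρ₁ ρ₂ m₁ m₂ →
      gi m₁ p (x2 m₁ m₂ p) ((ρ₂ - ρ₁) / w α t) < x2 m₁ m₂ p ∧
      Γ m₁ p (gi m₁ p (x2 m₁ m₂ p) ((ρ₂ - ρ₁) / w α t)) = (ρ₂ - ρ₁) / w α t := by
    intro t ht htT
    have hlt := (lt_merge_iff h h12 hm hm₂ ht).1 htT
    obtain ⟨g1, g2⟩ := gi_spec h.p1 hm hx2.le hlt.le
    refine ⟨lt_of_le_of_ne g1 fun hh => ?_, g2⟩
    rw [hh] at g2
    exact absurd g2 hlt.ne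
  have rel : ∀ t, 0 < t → t < mergeTime α ρ₁ ρ₂ m₁ m₂ →
      (T1 α p ρ₁ ρ₂ m₁ m₂ t - ρ₂) / w α t = gi m₁ p (x2 m₁ m₂ p) ((ρ₂ - ρ₁) / w α t) ∧
      (T1 α p ρ₁ ρ₂ m₁ m₂ t - ρ₁) / w α t = Q m₁ p ((T1 α p ρ₁ ρ₂ m₁ m₂ t - ρ₂) / w α t) ∧
      (T2 α p ρ₂ m₁ m₂ t - ρ₂) / w α t = x2 m₁ m₂ p := by
    intro t ht htT
    have hw := w_pos hα ht
    obtain ⟨g1, g2⟩ := spec t ht htT
    have a1 : (T1 α p ρ₁ ρ₂ m₁ m₂ t - ρ₂) / w α t = gi m₁ p (x2 m₁ m₂ p) ((ρ₂ - ρ₁) / w α t) := by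
      rw [T1, add_sub_cancel_left, mul_div_cancel_left₀ _ hw.ne']
    refine ⟨a1, ?_, ?_⟩
    · rw [Γ] at g2
      rw [a1]
      have : (T1 α p ρ₁ ρ₂ m₁ m₂ t - ρ₁) / w α t =
          (T1 α p ρ₁ ρ₂ m₁ m₂ t - ρ₂) / w α t + (ρ₂ - ρ₁) / w α t := by ring
      rw [this, a1]
      linarith
    · rw [T2, add_sub_cancel_left, mul_div_cancel_left₀ _ hw.ne']
  have ord : ∀ t, 0 < t → t < mergeTime α ρ₁ ρ₂ m₁ m₂ → ρ₁ < T1 α p ρ₁ ρ₂ m₁ m₂ t ∧
      T1 α p ρ₁ ρ₂ m₁ m₂ t < T2 α p ρ₂ m₁ m₂ t ∧ ρ₂ < T2 α p ρ₂ m₁ m₂ t := by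
    intro t ht htT
    have hw := w_pos hα ht
    obtain ⟨a1, a2, a3⟩ := rel t ht htT
    refine ⟨?_, ?_, ?_⟩
    · have : 0 < (T1 α p ρ₁ ρ₂ m₁ m₂ t - ρ₁) / w α t := by rw [a2]; exact Q_pos hm _
      have := (div_pos_iff_of_pos_right hw).1 this
      linarith
    · have := (spec t ht htT).1
      rw [T1, T2]
      have := mul_lt_mul_of_pos_left this hw
      linarith
    · rw [T2]
      have := mul_pos hw hx2
      linarith
  have small : ∀ᶠ t in 𝓝[>] 0, 0 < t ∧ t < mergeTime α ρ₁ ρ₂ m₁ m₂ ∧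
      T1 α p ρ₁ ρ₂ m₁ m₂ t = ρ₁ + m₁ * w α t := by
    have hd : Tendsto (fun t => w α t * m₁) (𝓝[>] 0) (𝓝 0) := by
      have := (tendsto_w hα).mul_const m₁
      simpa using this
    filter_upwards [Ioo_mem_nhdsGT (mergeTime_pos h h12 hm hm₂),
      hd.eventually (gt_mem_nhds (by linarith : 0 < ρ₂ - ρ₁))] with t ht ht2
    refine ⟨ht.1, ht.2, ?_⟩
    have hw := w_pos hα ht.1
    obtain ⟨g1, g2⟩ := spec t ht.1 ht.2
    have hneg : m₁ - (ρ₂ - ρ₁) / w α t ≤ 0 := by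
      rw [sub_nonpos, le_div_iff₀ hw]; linarith
    have e : gi m₁ p (x2 m₁ m₂ p) ((ρ₂ - ρ₁) / w α t) = m₁ - (ρ₂ - ρ₁) / w α t := by
      apply (strictAnti_Γ h.p1 hm).injective
      rw [g2, Γ, Q_of_nonpos h.p1 hm hneg]
      ring
    rw [T1, e]
    field_simp
    ring
  refine ⟨ord, ?_, ?_, ?_, ?_, ?_, ?_⟩
  · have : Tendsto (fun t => ρ₁ + m₁ * w α t) (𝓝[>] 0) (𝓝 (ρ₁ + m₁ * 0)) :=
      ((tendsto_w hα).const_mul m₁).const_add ρ₁
    rw [mul_zero, add_zero] at this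
    refine this.congr' ?_
    filter_upwards [small] with t ht
    exact ht.2.2.symm
  · have : Tendsto (fun t => ρ₂ + w α t * x2 m₁ m₂ p) (𝓝[>] 0) (𝓝 (ρ₂ + 0 * x2 m₁ m₂ p)) :=
      ((tendsto_w hα).mul_const _).const_add ρ₂
    rw [zero_mul, add_zero] at this
    exact this
  · refine tendsto_const_nhds.congr' ?_
    filter_upwards [small] with t ht
    have hw := w_pos hα ht.1
    rw [(mass_s1 hα ht.1 h0 (ord t ht.1 ht.2.1).1).2, ht.2.2]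
    field_simp
    ring
  · refine tendsto_const_nhds.congr' ?_
    filter_upwards [small] with t ht
    obtain ⟨o1, o2, o3⟩ := ord t ht.1 ht.2.1
    obtain ⟨a1, a2, a3⟩ := rel t ht.1 ht.2.1
    rw [mass_s2 h hm ht.1 h0 o1 o2.le, a2, a3, hQ2]
    ring
  · intro t ht htT
    have hw := w_pos hα ht
    obtain ⟨o1, o2, o3⟩ := ord t ht htT
    obtain ⟨a1, a2, a3⟩ := rel t ht htT
    obtain ⟨g1, g2⟩ := spec t ht htT
    have hlt := (lt_merge_iff h h12 hm hm₂ ht).1 htT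
    set X := gi m₁ p (x2 m₁ m₂ p) ((ρ₂ - ρ₁) / w α t) with hX
    set q := Qd m₁ p X with hq
    have hq0 : 0 ≤ q := Qd_nonneg hm _
    have hq1 : q < 1 := Qd_lt_one h.p1 hm _
    have hdw := hasDerivAt_w hα ht
    have e1 : HasDerivAt (fun t => (ρ₂ - ρ₁) / w α t) (-((ρ₂ - ρ₁) * w α t ^ (1 - α)) / w α t ^ 2) t := by
      have := (hasDerivAt_const t (ρ₂ - ρ₁)).div hdw hw.ne'
      refine this.congr_deriv ?_
      ring
    have e2 : HasDerivAt (fun t => gi m₁ p (x2 m₁ m₂ p) ((ρ₂ - ρ₁) / w α t))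
        ((q - 1)⁻¹ * (-((ρ₂ - ρ₁) * w α t ^ (1 - α)) / w α t ^ 2)) t :=
      HasDerivAt.comp (h₂ := gi m₁ p (x2 m₁ m₂ p)) t (gi_deriv h.p1 hm hx2.le hlt) e1
    have e3 : HasDerivAt (T1 α p ρ₁ ρ₂ m₁ m₂) (w α t ^ (1 - α) * X + w α t *
        ((q - 1)⁻¹ * (-((ρ₂ - ρ₁) * w α t ^ (1 - α)) / w α t ^ 2))) t := (hdw.mul e2).const_add ρ₂
    refine ⟨_, e3, 1 / w α t, q / w α t, ?_, ?_, ?_, ?_⟩
    · refine tendsto_const_nhds.congr' ?_
      filter_upwards [Ioo_mem_nhdsLT o1] with x hx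
      rw [← vort_eq hα ht]
      exact (dens_left hx.1 hx.2).symm
    · have hc := (continuous_fn (ρ₂ := ρ₂) h hm t ht).tendsto (T1 α p ρ₁ ρ₂ m₁ m₂ t)
      have hval : fn α p ρ₂ m₁ t (T1 α p ρ₁ ρ₂ m₁ m₂ t) = q / w α t := by
        rw [fn, a1]
      rw [hval] at hc
      refine (hc.mono_left nhdsWithin_le_nhds).congr' ?_
      filter_upwards [Ioo_mem_nhdsGT o2] with x hx
      exact (dens_right h hm ht hx.1 hx.2).symm
    · intro hh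
      have : (1:ℝ) = q := by
        field_simp at hh
        exact hh
      linarith
    · rw [(mass_s1 hα ht h0 o1).2, a2, a1]
      have key := Qd_rpow' h hm X
      have key2 : q * max X 0 = q * X := by
        by_cases hx : X ≤ 0
        · have : q = 0 := Qd_of_nonpos h.p1 hx
          rw [this]; ring
        · rw [max_eq_left (not_le.1 hx).le]
      rw [← hq, key2] at key
      have hy : (ρ₂ - ρ₁) = (Q m₁ p X - X) * w α t := by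
        rw [Γ] at g2
        rw [g2]; field_simp
      have hwa : 0 < w α t ^ α := Real.rpow_pos_of_pos hw _
      have hne : q - 1 ≠ 0 := by linarith
      have hwn : w α t ≠ 0 := hw.ne'
      rw [hy, Real.div_rpow hq0 hw.le, Real.div_rpow zero_le_one hw.le, Real.one_rpow,
        Real.rpow_sub hw, Real.rpow_one,
        show q / w α t - 1 / w α t = (q - 1) / w α t by ring]
      field_simp
      linear_combination -key
  · intro t ht htT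
    have hw := w_pos hα ht
    obtain ⟨o1, o2, o3⟩ := ord t ht htT
    obtain ⟨a1, a2, a3⟩ := rel t ht htT
    have hdw := hasDerivAt_w hα ht
    set q := Qd m₁ p (x2 m₁ m₂ p) with hq
    have hq0 : 0 < q := Qd_pos hm hx2
    have e3 : HasDerivAt (T2 α p ρ₂ m₁ m₂) (w α t ^ (1 - α) * x2 m₁ m₂ p) t :=
      (hdw.mul_const _).const_add ρ₂
    refine ⟨_, e3, q / w α t, 0, ?_, ?_, ?_, ?_⟩
    · have hc := (continuous_fn (ρ₂ := ρ₂) h hm t ht).tendsto (T2 α p ρ₂ m₁ m₂ t)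
      have hval : fn α p ρ₂ m₁ t (T2 α p ρ₂ m₁ m₂ t) = q / w α t := by
        rw [fn, a3]
      rw [hval] at hc
      refine (hc.mono_left nhdsWithin_le_nhds).congr' ?_
      filter_upwards [Ioo_mem_nhdsLT o2] with x hx
      exact (dens_right h hm ht hx.1 hx.2).symm
    · refine tendsto_const_nhds.congr' ?_
      filter_upwards [self_mem_nhdsWithin] with x hx
      have hx' : T2 α p ρ₂ m₁ m₂ t < x := hx
      rw [dens, if_neg (fun hh => by linarith [hh.2]), if_neg (fun hh => by linarith [hh.2])]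
    · positivity
    · rw [mass_s2 h hm ht h0 o1 o2.le, a2, a3]
      have key := Qd_rpow h hm (x2 m₁ m₂ p)
      rw [← hq, max_eq_left hx2.le] at key
      have hwn : w α t ≠ 0 := hw.ne'
      have hqn : q ≠ 0 := hq0.ne'
      have hwa : 0 < w α t ^ α := Real.rpow_pos_of_pos hw _
      have hqa : 0 < q ^ α := Real.rpow_pos_of_pos hq0 _
      rw [Real.rpow_sub hq0, Real.rpow_one] at key
      rw [Real.zero_rpow hα.ne', Real.div_rpow hq0.le hw.le, Real.rpow_sub hw, Real.rpow_one,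
        show (0:ℝ) - q ^ α / w α t ^ α = -(q ^ α / w α t ^ α) by ring,
        show (0:ℝ) - q / w α t = -(q / w α t) by ring, neg_div_neg_eq]
      field_simp
      field_simp at key
      linear_combination -key

end aux2

/-- The two shocks of the two-bump solution merge at the time `mergeTime`: the two-bump solution
exists exactly up to that time, is unique, and there `S₁ = S₂`. -/
theorem result (α ρ₁ ρ₂ m₁ m₂ : ℝ) (hα : 1 < α) (h0 : 0 < ρ₁) (h12 : ρ₁ < ρ₂) (hm₁ : 0 < m₁)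
    (hm₂ : 0 < m₂) :
    0 < mergeTime α ρ₁ ρ₂ m₁ m₂ ∧
    ∃ S₁ S₂ : ℝ → ℝ, IsTwoBump α ρ₁ ρ₂ m₁ m₂ (mergeTime α ρ₁ ρ₂ m₁ m₂) S₁ S₂ ∧
      ContinuousOn S₁ (Ioc 0 (mergeTime α ρ₁ ρ₂ m₁ m₂)) ∧
      ContinuousOn S₂ (Ioc 0 (mergeTime α ρ₁ ρ₂ m₁ m₂)) ∧
      S₁ (mergeTime α ρ₁ ρ₂ m₁ m₂) = S₂ (mergeTime α ρ₁ ρ₂ m₁ m₂) ∧
      ∀ (T : ℝ) (R₁ R₂ : ℝ → ℝ), IsTwoBump α ρ₁ ρ₂ m₁ m₂ T R₁ R₂ →
        T ≤ mergeTime α ρ₁ ρ₂ m₁ m₂ ∧ ∀ t, 0 < t → t < T → R₁ t = S₁ t ∧ R₂ t = S₂ t := by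
  have h : Q174.TwoBump.Conj α (α / (α - 1)) := ⟨hα, rfl⟩
  have hα0 : 0 < α := by linarith
  have hT := mergeTime_pos h h12 hm₁ hm₂
  have hx2 := x2_pos h.p1 hm₁ hm₂
  refine ⟨hT, T1 α (α / (α - 1)) ρ₁ ρ₂ m₁ m₂, T2 α (α / (α - 1)) ρ₂ m₁ m₂,
    existence h hm₁ hm₂ h0 h12, ?_, ?_, ?_, ?_⟩
  · have hw : ContinuousOn (w α) (Ioc 0 (mergeTime α ρ₁ ρ₂ m₁ m₂)) :=
      (continuousOn_w hα0).mono fun t ht => ht.1
    have hy : ContinuousOn (fun t => (ρ₂ - ρ₁) / w α t) (Ioc 0 (mergeTime α ρ₁ ρ₂ m₁ m₂)) :=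
      continuousOn_const.div hw fun t ht => (w_pos hα0 ht.1).ne'
    refine continuousOn_const.add (hw.mul ?_)
    refine (gi_continuousOn h.p1 hm₁ hx2.le).comp hy fun t ht => ?_
    rcases eq_or_lt_of_le ht.2 with h1 | h1
    · rw [h1]; exact (merge_eq h h12 hm₁ hm₂).ge
    · exact ((lt_merge_iff h h12 hm₁ hm₂ ht.1).1 h1).le
  · exact continuousOn_const.add (((continuousOn_w hα0).mono fun t ht => ht.1).mul continuousOn_const)
  · have hg := gi_spec h.p1 hm₁ hx2.le (le_refl (Q174.TwoBump.Γ m₁ (α / (α - 1)) (x2 m₁ m₂ (α / (α - 1)))))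
    have : gi m₁ (α / (α - 1)) (x2 m₁ m₂ (α / (α - 1)))
        (Q174.TwoBump.Γ m₁ (α / (α - 1)) (x2 m₁ m₂ (α / (α - 1)))) = x2 m₁ m₂ (α / (α - 1)) :=
      (Q174.TwoBump.strictAnti_Γ h.p1 hm₁).injective hg.2
    rw [T1, T2, merge_eq h h12 hm₁ hm₂, this]
  · intro T R₁ R₂ hR
    refine ⟨?_, fun t ht htT => ?_⟩
    · by_contra hcon
      have hlt := not_le.1 hcon
      have := (uniqueness h hm₁ hm₂ h0 h12 hR hT hlt).1
      exact lt_irrefl _ this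
    · exact (uniqueness h hm₁ hm₂ h0 h12 hR ht htT).2

end Pool.Agent.Results.MP_5288f0_an.Merging
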